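import Mathlib
import Pool.Agent.Y1.KN.Stm2

/-!
# The order of the group is bounded by the dimension of the fixed part of a minimal space
-/

set_option linter.unusedSectionVars false
set_option linter.unusedVariables false

namespace Pool.Agent.Y710.KN

open Finset Module Pool.Agent.TH170.MF Pool.Agent.TH170.QC Pool.Agent.TH170.QE
  Pool.Agent.TH170.FW Pool.Agent.Y1.KN

section proj

variable {X : Type*} [Fintype X]

theorem trace_eq_sum [DecidableEq X] (A : (X → ℚ) →ₗ[ℚ] (X → ℚ)) :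
    LinearMap.trace ℚ (X → ℚ) A = ∑ x, dot X (Pi.single x 1) (A (Pi.single x 1)) := by
  rw [LinearMap.trace_eq_matrix_trace ℚ (Pi.basisFun ℚ X), Matrix.trace]
  refine sum_congr rfl fun x _ => ?_
  rw [Matrix.diag_apply, LinearMap.toMatrix_apply, Pi.basisFun_apply, Pi.basisFun_repr, dot_apply,
    Finset.sum_eq_single x]
  · rw [Pi.single_eq_same, one_mul]
  · intro y _ hy
    rw [Pi.single_eq_of_ne hy, zero_mul]
  · intro h
    exact absurd (mem_univ x) h

theorem trace_nonneg {P Q : (X → ℚ) →ₗ[ℚ] (X → ℚ)} (hP : ∀ u, P (P u) = P u)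
    (hQ : ∀ u, Q (Q u) = Q u) (hPs : ∀ u v, dot X (P u) v = dot X u (P v))
    (hQs : ∀ u v, dot X (Q u) v = dot X u (Q v)) :
    0 ≤ LinearMap.trace ℚ (X → ℚ) (P ∘ₗ Q) := by
  classical
  have h1 : P ∘ₗ Q = (P ∘ₗ Q) ∘ₗ Q := by
    refine LinearMap.ext fun u => ?_
    change P (Q u) = P (Q (Q u))
    rw [hQ]
  rw [h1, LinearMap.trace_comp_comm', trace_eq_sum]
  refine sum_nonneg fun x _ => ?_
  have h2 : dot X (Pi.single x 1) ((Q ∘ₗ P ∘ₗ Q) (Pi.single x 1)) =
      dot X (P (Q (Pi.single x 1))) (P (Q (Pi.single x 1))) := by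
    rw [hPs, hP, hQs]
    rfl
  rw [h2, dot_apply]
  exact sum_nonneg fun y _ => mul_self_nonneg _

theorem finrank_inf_le (Y U : Submodule ℚ (X → ℚ)) :
    (finrank ℚ (Y ⊓ U : Submodule ℚ (X → ℚ)) : ℚ) ≤
      LinearMap.trace ℚ (X → ℚ) (proj Y ∘ₗ proj U) := by
  set W : Submodule ℚ (X → ℚ) := Y ⊓ U with hW
  have hWY : W ≤ Y := inf_le_left
  have hWU : W ≤ U := inf_le_right
  -- the products with the projection to the smaller space
  have e1 : ∀ {Z : Submodule ℚ (X → ℚ)}, W ≤ Z → ∀ u, proj Z (proj W u) = proj W u :=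
    fun {Z} h u => proj_of_mem Z (h (proj_mem W u))
  have e2 : ∀ {Z : Submodule ℚ (X → ℚ)}, W ≤ Z → ∀ u, proj W (proj Z u) = proj W u := by
    intro Z h u
    have h1 : proj W (u - proj Z u) = 0 := by
      refine proj_of_orth W ?_
      rw [mem_orth]
      intro s hs
      exact (mem_orth Z _).1 (sub_proj_mem Z u) s (h hs)
    rw [map_sub, sub_eq_zero] at h1
    exact h1.symm
  have e3 : ∀ u, proj W (proj W u) = proj W u := fun u => proj_of_mem W (proj_mem W u)
  have hid : ∀ {Z : Submodule ℚ (X → ℚ)}, W ≤ Z → ∀ u,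
      (proj Z - proj W) ((proj Z - proj W) u) = (proj Z - proj W) u := by
    intro Z h u
    have e4 : proj Z (proj Z u) = proj Z u := proj_of_mem Z (proj_mem Z u)
    rw [LinearMap.sub_apply, LinearMap.sub_apply, map_sub, map_sub, e4, e1 h, e2 h, e3]
    abel
  have hsy : ∀ {Z : Submodule ℚ (X → ℚ)}, ∀ u v,
      dot X ((proj Z - proj W) u) v = dot X u ((proj Z - proj W) v) := by
    intro Z u v
    rw [LinearMap.sub_apply, LinearMap.sub_apply, map_sub, map_sub, LinearMap.sub_apply,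
      proj_symm, proj_symm]
  have h1 := trace_nonneg (P := proj Y - proj W) (Q := proj U - proj W) (hid hWY) (hid hWU)
    hsy hsy
  have h2 : (proj Y - proj W) ∘ₗ (proj U - proj W) = proj Y ∘ₗ proj U - proj W := by
    refine LinearMap.ext fun u => ?_
    rw [LinearMap.comp_apply, LinearMap.sub_apply, LinearMap.sub_apply, LinearMap.sub_apply,
      map_sub, map_sub, e1 hWY, e2 hWU, e3, LinearMap.comp_apply]
    abel
  rw [h2, map_sub, trace_proj] at h1
  linarith

end proj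

section act

variable {G X : Type*} [Group G] [MulAction G X]

theorem tr_mem_fixedPart {S : Submodule ℚ (X → ℚ)} (hS : Invariant G S) (γ : G) (x₀ : X)
    {u : X → ℚ} (hu : u ∈ fixedPart G x₀ S) : tr γ u ∈ fixedPart G (γ⁻¹ • x₀) S := by
  refine ⟨tr_mem hS γ hu.1, fun h hh x => ?_⟩
  have h1 : (γ * h * γ⁻¹) • x₀ = x₀ := by
    rw [mul_smul, mul_smul, hh, smul_inv_smul]
  have h2 := hu.2 _ h1 (γ • x)
  rw [tr_apply, tr_apply, ← h2, smul_smul, smul_smul, inv_mul_cancel_right]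

theorem fixedPart_le (x : X) (S : Submodule ℚ (X → ℚ)) : fixedPart G x S ≤ S := fun _ h => h.1

theorem dstable_fixedPart {S : Submodule ℚ (X → ℚ)} (hS : Invariant G S) (x : X) :
    DStable G S (fixedPart G x S) := by
  intro A hA s hs
  refine ⟨hA.1 s, fun h hh y => ?_⟩
  have h1 := hA.2 h s s (fun z => (hs.2 h hh z).symm) y
  exact h1.symm

theorem dstable_sup {S Y U : Submodule ℚ (X → ℚ)} (hY : Y ≤ S) (hU : U ≤ S)
    (hYd : DStable G S Y) (hUd : DStable G S U) : DStable G S (Y ⊔ U) := by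
  intro A hA s hs
  obtain ⟨y, hy, u, hu, h⟩ := Submodule.mem_sup.1 hs
  have h1 : s = ⟨y, hY hy⟩ + ⟨u, hU hu⟩ := Subtype.ext h.symm
  rw [h1, map_add]
  exact Submodule.add_mem_sup (hYd A hA ⟨y, hY hy⟩ hy) (hUd A hA ⟨u, hU hu⟩ hu)

theorem dstable_bot (S : Submodule ℚ (X → ℚ)) : DStable G S ⊥ := by
  intro A hA s hs
  have h1 : s = 0 := Subtype.ext ((Submodule.mem_bot ℚ).1 hs)
  rw [h1, map_zero]
  exact Submodule.zero_mem _

variable [Fintype X]

theorem conj_proj {S : Submodule ℚ (X → ℚ)} (hS : Invariant G S) (γ : G) (x₀ : X) :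
    tr γ ∘ₗ proj (fixedPart G x₀ S) ∘ₗ tr γ⁻¹ = proj (fixedPart G (γ⁻¹ • x₀) S) := by
  refine LinearMap.ext fun u => ?_
  refine (proj_eq (fixedPart G (γ⁻¹ • x₀) S) ?_ ?_).symm
  · exact tr_mem_fixedPart hS γ x₀ (proj_mem _ _)
  · rw [mem_orth]
    intro s hs
    have h1 : tr γ⁻¹ s ∈ fixedPart G x₀ S := by
      have h2 := tr_mem_fixedPart hS γ⁻¹ (γ⁻¹ • x₀) hs
      rwa [inv_inv, smul_inv_smul] at h2
    have h2 := dot_sub_proj (fixedPart G x₀ S) h1 (tr γ⁻¹ u)
    rw [dot_tr, inv_inv, map_sub, tr_tr_inv] at h2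
    exact h2

theorem finrank_fixedPart {S : Submodule ℚ (X → ℚ)} (hS : Invariant G S) (γ : G) (x₀ : X) :
    finrank ℚ (fixedPart G (γ⁻¹ • x₀) S) = finrank ℚ (fixedPart G x₀ S) := by
  have h1 : ((finrank ℚ (fixedPart G (γ⁻¹ • x₀) S) : ℕ) : ℚ) = finrank ℚ (fixedPart G x₀ S) := by
    rw [← trace_proj, ← trace_proj, ← conj_proj hS γ x₀, LinearMap.trace_comp_comm',
      LinearMap.comp_assoc]
    congr 1
    refine LinearMap.ext fun u => ?_
    change proj (fixedPart G x₀ S) (tr γ⁻¹ (tr γ u)) = _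
    rw [tr_inv_tr]
  exact_mod_cast h1

end act

/-- One step of the choice of a base. -/
theorem step (hA : P_avg) {G X : Type} [Group G] [Fintype G] [MulAction G X] [Fintype X]
    {c : G} {S : Submodule ℚ (X → ℚ)} (hS : S ∈ MinInv G (fun x : X => c • x)) (x₀ : X)
    {Y : Submodule ℚ (X → ℚ)} (hY : Y ≤ S) (hYd : DStable G S Y) :
    ∃ x : X, finrank ℚ (fixedPart G x S) = finrank ℚ (fixedPart G x₀ S) ∧
      finrank ℚ S * finrank ℚ (Y ⊓ fixedPart G x S : Submodule ℚ (X → ℚ)) ≤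
        finrank ℚ Y * finrank ℚ (fixedPart G x₀ S) := by
  have hSi : Invariant G S := hS.2.1
  by_contra hcon
  push Not at hcon
  have h1 := hA G X c S Y (fixedPart G x₀ S) hS hY hYd (fixedPart_le _ _)
  have h2 : LinearMap.trace ℚ (X → ℚ) (proj Y ∘ₗ avg G (fixedPart G x₀ S)) =
      ∑ γ : G, LinearMap.trace ℚ (X → ℚ) (proj Y ∘ₗ proj (fixedPart G (γ⁻¹ • x₀) S)) := by
    rw [← map_sum]
    congr 1
    refine LinearMap.ext fun u => ?_
    rw [LinearMap.comp_apply, avg, LinearMap.sum_apply, map_sum, LinearMap.sum_apply]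
    refine sum_congr rfl fun γ _ => ?_
    rw [← conj_proj hSi]
    rfl
  rw [h2, mul_sum] at h1
  have h3 : ∀ γ : G, ((finrank ℚ Y * finrank ℚ (fixedPart G x₀ S) : ℕ) : ℚ) <
      (finrank ℚ S : ℚ) *
        LinearMap.trace ℚ (X → ℚ) (proj Y ∘ₗ proj (fixedPart G (γ⁻¹ • x₀) S)) := by
    intro γ
    have h4 := hcon (γ⁻¹ • x₀) (finrank_fixedPart hSi γ x₀)
    have h5 := finrank_inf_le Y (fixedPart G (γ⁻¹ • x₀) S)
    calc ((finrank ℚ Y * finrank ℚ (fixedPart G x₀ S) : ℕ) : ℚ)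
        < ((finrank ℚ S * finrank ℚ (Y ⊓ fixedPart G (γ⁻¹ • x₀) S : Submodule ℚ (X → ℚ)) : ℕ) :
            ℚ) := by exact_mod_cast h4
      _ = (finrank ℚ S : ℚ) *
            finrank ℚ (Y ⊓ fixedPart G (γ⁻¹ • x₀) S : Submodule ℚ (X → ℚ)) := by push_cast; rfl
      _ ≤ _ := mul_le_mul_of_nonneg_left h5 (Nat.cast_nonneg _)
  have h4 : ∑ γ : G, ((finrank ℚ Y * finrank ℚ (fixedPart G x₀ S) : ℕ) : ℚ) <
      ∑ γ : G, (finrank ℚ S : ℚ) *
        LinearMap.trace ℚ (X → ℚ) (proj Y ∘ₗ proj (fixedPart G (γ⁻¹ • x₀) S)) :=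
    sum_lt_sum_of_nonempty ⟨1, mem_univ _⟩ fun γ _ => h3 γ
  rw [h1, sum_const, card_univ, nsmul_eq_mul, Nat.card_eq_fintype_card] at h4
  push_cast at h4
  have h5 : (Fintype.card G : ℚ) * ((finrank ℚ Y : ℚ) * finrank ℚ (fixedPart G x₀ S)) =
      (finrank ℚ Y : ℚ) * (Fintype.card G * finrank ℚ (fixedPart G x₀ S)) := by ring
  rw [h5] at h4
  exact lt_irrefl _ h4

/-- The choice of a base. -/
theorem greedy (hA : P_avg) {G X : Type} [Group G] [Fintype G] [MulAction G X] [Fintype X]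
    {c : G} {S : Submodule ℚ (X → ℚ)} (hS : S ∈ MinInv G (fun x : X => c • x)) (x₀ : X) (b : ℕ) :
    ∃ (T : Fin b → X) (Y : Submodule ℚ (X → ℚ)), Y ≤ S ∧ DStable G S Y ∧
      (∀ η : G, (∀ i, η • T i = T i) → ∀ s ∈ Y, ∀ x, s (η • x) = s x) ∧
      (finrank ℚ S : ℝ) - finrank ℚ Y ≤
        finrank ℚ S * (1 - (finrank ℚ (fixedPart G x₀ S) : ℝ) / finrank ℚ S) ^ b := by
  have hSi : Invariant G S := hS.2.1
  have hd : 0 < finrank ℚ S := by
    have h1 : finrank ℚ S ≠ 0 := by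
      intro h
      exact hS.1 (Submodule.finrank_eq_zero.1 h)
    omega
  have hd' : (0 : ℝ) < finrank ℚ S := by exact_mod_cast hd
  have hh : (finrank ℚ (fixedPart G x₀ S) : ℝ) ≤ finrank ℚ S := by
    exact_mod_cast Submodule.finrank_mono (fixedPart_le x₀ S)
  have hq : (0 : ℝ) ≤ 1 - (finrank ℚ (fixedPart G x₀ S) : ℝ) / finrank ℚ S := by
    rw [sub_nonneg, div_le_one hd']
    exact hh
  induction b with
  | zero =>
    refine ⟨fun i => i.elim0, ⊥, bot_le, dstable_bot S, ?_, ?_⟩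
    · intro η _ s hs x
      rw [(Submodule.mem_bot ℚ).1 hs]
      rfl
    · rw [pow_zero, mul_one, finrank_bot]
      simp
  | succ b ih =>
    obtain ⟨T, Y, hY, hYd, hfix, hdim⟩ := ih
    obtain ⟨x, hx1, hx2⟩ := step hA hS x₀ hY hYd
    refine ⟨Fin.snoc T x, Y ⊔ fixedPart G x S, sup_le hY (fixedPart_le _ _),
      dstable_sup hY (fixedPart_le _ _) hYd (dstable_fixedPart hSi x), ?_, ?_⟩
    · intro η hη s hs y
      obtain ⟨s₁, hs₁, s₂, hs₂, rfl⟩ := Submodule.mem_sup.1 hs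
      have h1 : ∀ i, η • T i = T i := by
        intro i
        have h2 := hη i.castSucc
        rwa [Fin.snoc_castSucc] at h2
      have h2 : η • x = x := by
        have h3 := hη (Fin.last b)
        rwa [Fin.snoc_last] at h3
      rw [Pi.add_apply, Pi.add_apply, hfix η h1 s₁ hs₁, hs₂.2 η h2]
    · have h1 := Submodule.finrank_sup_add_finrank_inf_eq Y (fixedPart G x S)
      have h2 : (finrank ℚ (Y ⊔ fixedPart G x S : Submodule ℚ (X → ℚ)) : ℝ) +
          finrank ℚ (Y ⊓ fixedPart G x S : Submodule ℚ (X → ℚ)) =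
          finrank ℚ Y + finrank ℚ (fixedPart G x₀ S) := by
        rw [← hx1]
        exact_mod_cast h1
      have h3 : (finrank ℚ S : ℝ) * finrank ℚ (Y ⊓ fixedPart G x S : Submodule ℚ (X → ℚ)) ≤
          finrank ℚ Y * finrank ℚ (fixedPart G x₀ S) := by exact_mod_cast hx2
      set d : ℝ := ((finrank ℚ S : ℕ) : ℝ) with hdd
      set h : ℝ := ((finrank ℚ (fixedPart G x₀ S) : ℕ) : ℝ) with hhh
      set y : ℝ := ((finrank ℚ Y : ℕ) : ℝ) with hyy
      set w : ℝ := ((finrank ℚ (Y ⊓ fixedPart G x S : Submodule ℚ (X → ℚ)) : ℕ) : ℝ) with hww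
      set z : ℝ := ((finrank ℚ (Y ⊔ fixedPart G x S : Submodule ℚ (X → ℚ)) : ℕ) : ℝ) with hzz
      have h4 : w ≤ y * h / d := by
        rw [le_div_iff₀ hd']
        linarith
      calc d - z = d - y - h + w := by linarith
        _ ≤ d - y - h + y * h / d := by linarith
        _ = (d - y) * (1 - h / d) := by
            field_simp
            ring
        _ ≤ (d * (1 - h / d) ^ b) * (1 - h / d) := mul_le_mul_of_nonneg_right hdim hq
        _ = d * (1 - h / d) ^ (b + 1) := by rw [pow_succ, mul_assoc]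

/-- The bound for the order of the group. -/
theorem base (hA : P_avg) : P_base := by
  intro G X _ _ _ _ _ _ c S hS x₀ hfaith b hb
  obtain ⟨T, Y, hY, hYd, hfix, hdim⟩ := greedy hA hS x₀ b
  have h1 : (finrank ℚ S : ℝ) < finrank ℚ Y + 1 := by linarith
  have h2 : finrank ℚ S < finrank ℚ Y + 1 := by exact_mod_cast h1
  have h3 : Y = S := Submodule.eq_of_le_of_finrank_le hY (by omega)
  subst h3
  have hinj : Function.Injective (fun γ : G => fun i => γ • T i) := by
    intro γ δ h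
    have h4 : ∀ i, (δ⁻¹ * γ) • T i = T i := by
      intro i
      have h5 : γ • T i = δ • T i := congrFun h i
      rw [mul_smul, h5, inv_smul_smul]
    have h5 := hfaith (δ⁻¹ * γ) (hfix _ h4)
    exact (inv_mul_eq_one.1 h5).symm
  calc Nat.card G = Fintype.card G := Nat.card_eq_fintype_card
    _ ≤ Fintype.card (Fin b → X) := Fintype.card_le_of_injective _ hinj
    _ = Fintype.card X ^ b := by rw [Fintype.card_fun, Fintype.card_fin]

end Pool.Agent.Y710.KN
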