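import Mathlib
import Pool.Agent.Y1.KN.Stm2

/-!
# The numerical part of the bound
-/

set_option linter.unusedSectionVars false
set_option linter.unusedVariables false

namespace Pool.Agent.Y710.KN

open Real Filter

theorem asy : ∃ g₀ : ℕ, 2 ≤ g₀ ∧ ∀ g : ℕ, g₀ ≤ g →
    20000 * Real.log (2 * g) ^ 3 ≤ (g : ℝ) ^ (1 / 120 : ℝ) := by
  have h1 := isLittleO_log_rpow_rpow_atTop (3 : ℝ) (show (0 : ℝ) < 1 / 120 by norm_num)
  have h2 := h1.def (show (0 : ℝ) < 1 / 40000 by norm_num)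
  have h3 : Tendsto (fun g : ℕ => 2 * (g : ℝ)) atTop atTop :=
    tendsto_natCast_atTop_atTop.const_mul_atTop (by norm_num)
  obtain ⟨g₁, hg₁⟩ := eventually_atTop.1 (h3.eventually h2)
  refine ⟨max g₁ 2, le_max_right _ _, fun g hg => ?_⟩
  have h5 := hg₁ g ((le_max_left _ _).trans hg)
  have hg2 : (2 : ℝ) ≤ g := by exact_mod_cast (le_max_right _ _).trans hg
  have hlog : 0 ≤ Real.log (2 * g) := Real.log_nonneg (by linarith)
  rw [Real.norm_of_nonneg (Real.rpow_nonneg hlog _),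
    Real.norm_of_nonneg (Real.rpow_nonneg (by linarith) _)] at h5
  have h6 : Real.log (2 * g) ^ (3 : ℝ) = Real.log (2 * g) ^ 3 := by
    exact_mod_cast Real.rpow_natCast (Real.log (2 * g)) 3
  have h7 : (2 * (g : ℝ)) ^ (1 / 120 : ℝ) ≤ 2 * (g : ℝ) ^ (1 / 120 : ℝ) := by
    rw [Real.mul_rpow (by norm_num) (by linarith)]
    refine mul_le_mul_of_nonneg_right ?_ (Real.rpow_nonneg (by linarith) _)
    calc (2 : ℝ) ^ (1 / 120 : ℝ) ≤ 2 ^ (1 : ℝ) :=
          Real.rpow_le_rpow_of_exponent_le (by norm_num) (by norm_num)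
      _ = 2 := Real.rpow_one 2
  rw [h6] at h5
  linarith

theorem caseB (g d h e c n : ℕ) (t Λ L N : ℝ) (hΛ : 1 ≤ Λ) (ht : 20000 * Λ ^ 3 ≤ t)
    (hgt : (g : ℝ) = t ^ 120) (hn : 1 ≤ n) (hh : 1 ≤ h) (hhd : h ≤ d) (he : 1 ≤ e)
    (hhe : h * d ≤ e * g) (hc : c = e + (d - h)) (hc3 : 3 ≤ c) (hdg : d ≤ g) (hL0 : 0 ≤ L)
    (hL : L ≤ 170 * Λ ^ 3) (hb : (d : ℝ) ≤ 160 * Λ * h)
    (hN1 : N ≤ Pool.Agent.TH170.QE.boundA g d c L)
    (hN2 : N ≤ (n : ℝ) ^ 2 * h * d / ((e : ℝ) ^ 2 * √g)) :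
    N ≤ (n : ℝ) ^ 2 * (d / g) * (1 / t ^ 24) := by
  have hΛ3 : 1 ≤ Λ ^ 3 := one_le_pow₀ hΛ
  have hΛ' : Λ ≤ Λ ^ 3 := le_self_pow₀ hΛ (by norm_num)
  have ht1 : (20000 : ℝ) ≤ t := by linarith
  have ht0 : 0 < t := by linarith
  have ht1' : 1 ≤ t := by linarith
  have hn' : (1 : ℝ) ≤ n := by exact_mod_cast hn
  have hn2 : (1 : ℝ) ≤ (n : ℝ) ^ 2 := one_le_pow₀ hn'
  have hh' : (1 : ℝ) ≤ h := by exact_mod_cast hh
  have hd' : (1 : ℝ) ≤ d := by exact_mod_cast le_trans hh hhd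
  have he' : (1 : ℝ) ≤ e := by exact_mod_cast he
  have hg' : (0 : ℝ) < g := by rw [hgt]; positivity
  have hLt : 10 ^ 4 + 10 * L ≤ t := by linarith
  have h53 : 53 * L ≤ t := by linarith
  have hLt' : L ≤ t := by linarith
  have hΛt : 160 * Λ ≤ t := by linarith
  have hpos : 0 ≤ (d : ℝ) / g * (1 / t ^ 24) := by positivity
  have hlift : N ≤ (d : ℝ) / g * (1 / t ^ 24) → N ≤ (n : ℝ) ^ 2 * (d / g) * (1 / t ^ 24) := by
    intro h
    rw [mul_assoc]
    exact h.trans (le_mul_of_one_le_left hpos hn2)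
  rcases le_or_gt (d : ℝ) (t ^ 110) with h110 | h110
  · have hcond : (10 ^ 4 + 10 * L) ^ 2 * L * d ≤ 2 * g := by
      calc (10 ^ 4 + 10 * L) ^ 2 * L * d ≤ t ^ 2 * t * t ^ 110 := by gcongr
        _ = t ^ 113 := by ring
        _ ≤ t ^ 120 := pow_le_pow_right₀ ht1' (by norm_num)
        _ = g := hgt.symm
        _ ≤ 2 * g := by linarith
    rw [Pool.Agent.TH170.QE.boundA, if_pos hcond] at hN1
    apply hlift
    obtain ⟨y, hy⟩ : ∃ y : ℝ, y = 53 * L * d / g := ⟨_, rfl⟩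
    rw [← hy] at hN1
    have hy0 : 0 ≤ y := by rw [hy]; positivity
    rcases le_or_gt (d : ℝ) (t ^ 66) with h66 | h66
    · have hy1 : y ≤ 1 := by
        rw [hy, div_le_one hg', hgt]
        calc 53 * L * d ≤ t * t ^ 66 := by gcongr
          _ = t ^ 67 := by ring
          _ ≤ t ^ 120 := pow_le_pow_right₀ ht1' (by norm_num)
      have hs1 : √y ≤ 1 := by
        rw [← Real.sqrt_one]
        exact Real.sqrt_le_sqrt hy1
      have h3 : √y ^ c ≤ √y ^ 3 := pow_le_pow_of_le_one (Real.sqrt_nonneg _) hs1 hc3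
      have h4 : 53 * L * √y ≤ 1 / t ^ 24 := by
        have h5 : (53 * L) ^ 2 * y ≤ (1 / t ^ 24) ^ 2 := by
          calc (53 * L) ^ 2 * y = (53 * L) ^ 3 * d / g := by rw [hy]; ring
            _ ≤ t ^ 3 * t ^ 66 / g := by gcongr
            _ = t ^ 3 * t ^ 66 / t ^ 120 := by rw [hgt]
            _ ≤ (1 / t ^ 24) ^ 2 := by
                rw [div_pow, one_pow, div_le_div_iff₀ (by positivity) (by positivity)]
                calc t ^ 3 * t ^ 66 * (t ^ 24) ^ 2 = t ^ 117 := by ring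
                  _ ≤ t ^ 120 := pow_le_pow_right₀ ht1' (by norm_num)
                  _ = 1 * t ^ 120 := (one_mul _).symm
        have h6 : (53 * L * √y) ^ 2 ≤ (1 / t ^ 24) ^ 2 := by
          rw [mul_pow, Real.sq_sqrt hy0]
          exact h5
        exact (sq_le_sq₀ (by positivity) (by positivity)).1 h6
      calc N ≤ √y ^ 3 := hN1.trans h3
        _ = y * √y := by rw [pow_succ, Real.sq_sqrt hy0]
        _ = (53 * L * d / g) * √y := by rw [← hy]
        _ = (d / g) * (53 * L * √y) := by ring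
        _ ≤ (d / g) * (1 / t ^ 24) := by gcongr
    · have hy1 : y ≤ (1 / t ^ 4) ^ 2 := by
        calc y = 53 * L * d / g := hy
          _ ≤ t * t ^ 110 / g := by gcongr
          _ = t * t ^ 110 / t ^ 120 := by rw [hgt]
          _ ≤ (1 / t ^ 4) ^ 2 := by
              rw [div_pow, one_pow, div_le_div_iff₀ (by positivity) (by positivity)]
              calc t * t ^ 110 * (t ^ 4) ^ 2 = t ^ 119 := by ring
                _ ≤ t ^ 120 := pow_le_pow_right₀ ht1' (by norm_num)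
                _ = 1 * t ^ 120 := (one_mul _).symm
      have hs1 : √y ≤ 1 / t ^ 4 := Real.sqrt_le_iff.2 ⟨by positivity, hy1⟩
      have hc' : (96 : ℝ) ≤ c := by
        have h1 : (h : ℝ) * d ≤ e * g := by exact_mod_cast hhe
        have h2 : (c : ℝ) = e + (d - h) := by
          rw [hc]
          push_cast [Nat.cast_sub hhd]
          ring
        have h3 : (d : ℝ) ≤ g := by exact_mod_cast hdg
        have h4 : (h : ℝ) ≤ d := by exact_mod_cast hhd
        have h5 : (d : ℝ) * d ≤ c * g := by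
          rw [h2]
          nlinarith
        have h6 : t ^ 66 * t ^ 66 ≤ (d : ℝ) * d := by gcongr
        have h7 : t ^ 12 * t ^ 120 ≤ c * t ^ 120 := by
          rw [← hgt]
          calc t ^ 12 * (g : ℝ) = t ^ 66 * t ^ 66 := by rw [hgt]; ring
            _ ≤ _ := h6.trans h5
        have h8 : t ^ 12 ≤ c := le_of_mul_le_mul_right h7 (by positivity)
        have h9 : t ^ 1 ≤ t ^ 12 := pow_le_pow_right₀ ht1' (by norm_num)
        rw [pow_one] at h9
        linarith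
      have hc96 : 96 ≤ c := by exact_mod_cast hc'
      have ht4 : 1 / t ^ 4 ≤ 1 := by
        rw [div_le_one (by positivity)]
        exact one_le_pow₀ ht1'
      calc N ≤ √y ^ c := hN1
        _ ≤ (1 / t ^ 4) ^ c := pow_le_pow_left₀ (Real.sqrt_nonneg _) hs1 c
        _ ≤ (1 / t ^ 4) ^ 96 := pow_le_pow_of_le_one (by positivity) ht4 hc96
        _ = 1 / t ^ 384 := by rw [div_pow, one_pow, ← pow_mul]
        _ ≤ 1 / t ^ 144 := one_div_le_one_div_of_le (by positivity)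
            (pow_le_pow_right₀ ht1' (by norm_num))
        _ = (1 / g) * (1 / t ^ 24) := by
            rw [hgt, one_div_mul_one_div, ← pow_add]
        _ ≤ (d / g) * (1 / t ^ 24) := by gcongr
  · refine hN2.trans ?_
    have hsq : √(g : ℝ) = t ^ 60 := by
      rw [hgt, show t ^ 120 = (t ^ 60) ^ 2 by ring]
      exact Real.sqrt_sq (by positivity)
    have h1 : (h : ℝ) * d ≤ e * g := by exact_mod_cast hhe
    -- the main inequality
    have h2 : (g : ℝ) ^ 3 ≤ h * d ^ 2 * t ^ 36 := by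
      have h3 : (d : ℝ) ≤ t * h := hb.trans (mul_le_mul_of_nonneg_right hΛt (by linarith))
      have h4 : t ^ 110 * t ^ 110 * t ^ 110 ≤ (t * h) * d * d := by gcongr <;> linarith
      have h5 : t ^ 329 ≤ h * d ^ 2 := by
        have h6 : t ^ 329 * t ≤ h * d ^ 2 * t := by
          calc t ^ 329 * t = t ^ 110 * t ^ 110 * t ^ 110 := by ring
            _ ≤ (t * h) * d * d := h4
            _ = h * d ^ 2 * t := by ring
        exact le_of_mul_le_mul_right h6 ht0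
      calc (g : ℝ) ^ 3 = t ^ 360 := by rw [hgt]; ring
        _ ≤ t ^ 365 := pow_le_pow_right₀ ht1' (by norm_num)
        _ = t ^ 329 * t ^ 36 := by ring
        _ ≤ h * d ^ 2 * t ^ 36 := by gcongr
    have h3 : (h : ℝ) * g ≤ e ^ 2 * t ^ 36 := by
      have h4 : (h : ℝ) * g * g ^ 2 ≤ e ^ 2 * t ^ 36 * g ^ 2 := by
        calc (h : ℝ) * g * g ^ 2 = h * g ^ 3 := by ring
          _ ≤ h * (h * d ^ 2 * t ^ 36) := by gcongr
          _ = (h * d) ^ 2 * t ^ 36 := by ring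
          _ ≤ (e * g) ^ 2 * t ^ 36 := by gcongr
          _ = e ^ 2 * t ^ 36 * g ^ 2 := by ring
      exact le_of_mul_le_mul_right h4 (by positivity)
    have h4 : (n : ℝ) ^ 2 * (d / g) * (1 / t ^ 24) = n ^ 2 * d / (g * t ^ 24) := by
      field_simp
    rw [hsq, h4, div_le_div_iff₀ (by positivity) (by positivity)]
    calc (n : ℝ) ^ 2 * h * d * (g * t ^ 24) = n ^ 2 * d * (h * g) * t ^ 24 := by ring
      _ ≤ n ^ 2 * d * (e ^ 2 * t ^ 36) * t ^ 24 := by gcongr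
      _ = n ^ 2 * d * (e ^ 2 * t ^ 60) := by ring

theorem caseA (g d h n Gc : ℕ) (L N : ℝ) (hn : 1 ≤ n) (hng : n ≤ g) (hh : 1 ≤ h) (hhd : h ≤ d)
    (hdg : d ≤ g) (hL : L ≤ (2 * g + 1) * Real.log (2 * g)) (hL0 : 0 ≤ L)
    (ha : 160 * Real.log (2 * g) * h < d)
    (hP : ∀ P : ℝ, 10 ^ 4 ≤ P → 10 * L ≤ P → N ≤ (4 / 5) ^ d * P ^ h) :
    N ≤ 1 / (g : ℝ) ^ 16 := by
  have hg : 1 ≤ g := hh.trans (hhd.trans hdg)
  have hg' : (1 : ℝ) ≤ g := by exact_mod_cast hg
  have hh' : (1 : ℝ) ≤ h := by exact_mod_cast hh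
  obtain ⟨x, hx⟩ : ∃ x : ℝ, x = 2 * g := ⟨_, rfl⟩
  have hx2 : 2 ≤ x := by linarith
  rw [← hx] at hL ha
  have hlog0 : 0 ≤ Real.log x := Real.log_nonneg (by linarith)
  have hlogx : Real.log x ≤ x := (Real.log_le_sub_one_of_pos (by linarith)).trans (by linarith)
  have h1 := hP (10 ^ 4 + 10 * L) (by linarith) (by linarith)
  -- the bound for P
  have h2 : 10 ^ 4 + 10 * L ≤ x ^ 16 := by
    have h3 : L ≤ (x + 1) * x := hL.trans (mul_le_mul_of_nonneg_left hlogx (by linarith))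
    have h4 : (2 : ℝ) ^ 14 ≤ x ^ 14 := pow_le_pow_left₀ (by norm_num) hx2 14
    have h5 : (x + 1) * x ≤ 3 / 2 * x ^ 2 := by nlinarith
    have h6 : (2 : ℝ) ^ 14 * x ^ 2 ≤ x ^ 16 := by
      calc (2 : ℝ) ^ 14 * x ^ 2 ≤ x ^ 14 * x ^ 2 := by gcongr
        _ = x ^ 16 := by ring
    have h7 : (4 : ℝ) ≤ x ^ 2 := by nlinarith
    nlinarith
  have h3 : (10 ^ 4 + 10 * L) ^ h ≤ Real.exp (16 * Real.log x * h) := by
    calc (10 ^ 4 + 10 * L) ^ h ≤ (x ^ 16) ^ h := pow_le_pow_left₀ (by positivity) h2 h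
      _ = Real.exp (16 * Real.log x * h) := by
          rw [← Real.exp_log (show 0 < x by linarith)]
          rw [← Real.exp_nat_mul, ← Real.exp_nat_mul, Real.log_exp]
          congr 1
          push_cast
          ring
  have h4 : ((4 : ℝ) / 5) ^ d ≤ Real.exp (-(1 / 5) * d) := by
    have h5 : ((4 : ℝ) / 5) ≤ Real.exp (-(1 / 5)) := by
      have h6 := Real.add_one_le_exp (-(1 / 5) : ℝ)
      linarith
    calc ((4 : ℝ) / 5) ^ d ≤ (Real.exp (-(1 / 5))) ^ d := pow_le_pow_left₀ (by norm_num) h5 d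
      _ = Real.exp (-(1 / 5) * d) := by
          rw [← Real.exp_nat_mul]
          congr 1
          ring
  have h5 : 16 * Real.log x ≤ (1 / 10) * d := by nlinarith
  calc N ≤ (4 / 5) ^ d * (10 ^ 4 + 10 * L) ^ h := h1
    _ ≤ Real.exp (-(1 / 5) * d) * Real.exp (16 * Real.log x * h) := by gcongr
    _ = Real.exp (-(1 / 5) * d + 16 * Real.log x * h) := (Real.exp_add _ _).symm
    _ ≤ Real.exp (-(16 * Real.log x)) := by
        apply Real.exp_le_exp.2
        nlinarith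
    _ = 1 / x ^ 16 := by
        rw [Real.exp_neg, one_div, ← Real.exp_log (show 0 < x by linarith), ← Real.exp_nat_mul,
          Real.log_exp]
        norm_num
    _ ≤ 1 / (g : ℝ) ^ 16 := by
        apply one_div_le_one_div_of_le (by positivity)
        exact pow_le_pow_left₀ (by linarith) (by linarith) 16

theorem num : Pool.Agent.Y1.KN.P_num := by
  obtain ⟨g₀, hg₀2, hg₀⟩ := asy
  have hg₀' : (2 : ℝ) ≤ g₀ := by exact_mod_cast hg₀2
  refine ⟨(g₀ : ℝ) ^ 2, ?_⟩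
  intro g d h e c n Gc N hn hh hhd hdg he hhe hc hc3 hGc1 hGc2 hb hN hA hK hP
  have hg : 1 ≤ g := hh.trans (hhd.trans hdg)
  have hg' : (1 : ℝ) ≤ g := by exact_mod_cast hg
  have hn' : (1 : ℝ) ≤ n := by exact_mod_cast hn
  have hn2 : (1 : ℝ) ≤ (n : ℝ) ^ 2 := one_le_pow₀ hn'
  have hd' : (1 : ℝ) ≤ d := by exact_mod_cast hh.trans hhd
  have hh' : (1 : ℝ) ≤ h := by exact_mod_cast hh
  have hC1 : (1 : ℝ) ≤ (g₀ : ℝ) ^ 2 := one_le_pow₀ (by linarith)
  have hr0 : 0 < (g : ℝ) ^ (-(1 / 5) : ℝ) := Real.rpow_pos_of_pos (by linarith) _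
  have hr1 : (g : ℝ)⁻¹ ≤ (g : ℝ) ^ (-(1 / 5) : ℝ) := by
    rw [← Real.rpow_neg_one]
    exact Real.rpow_le_rpow_of_exponent_le hg' (by norm_num)
  -- the right side is at least `C n² / g²`
  have hlow : (g₀ : ℝ) ^ 2 * (n : ℝ) ^ 2 / (g : ℝ) ^ 2 ≤
      (g₀ : ℝ) ^ 2 * (n : ℝ) ^ 2 * (d / g) * (g : ℝ) ^ (-(1 / 5) : ℝ) := by
    calc (g₀ : ℝ) ^ 2 * (n : ℝ) ^ 2 / (g : ℝ) ^ 2 =
          (g₀ : ℝ) ^ 2 * (n : ℝ) ^ 2 * (1 / g) * (g : ℝ)⁻¹ := by
            field_simp
      _ ≤ _ := by gcongr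
  rcases lt_or_ge g n with hng | hng
  · refine hN.trans (le_trans ?_ hlow)
    rw [le_div_iff₀ (by positivity), one_mul]
    have h1 : (g : ℝ) ≤ n := by exact_mod_cast hng.le
    calc (g : ℝ) ^ 2 ≤ (n : ℝ) ^ 2 := by gcongr
      _ ≤ (g₀ : ℝ) ^ 2 * (n : ℝ) ^ 2 := le_mul_of_one_le_left (by positivity) hC1
  rcases lt_or_ge g g₀ with hgg | hgg
  · refine hN.trans (le_trans ?_ hlow)
    rw [le_div_iff₀ (by positivity), one_mul]
    have h1 : (g : ℝ) ≤ g₀ := by exact_mod_cast hgg.le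
    calc (g : ℝ) ^ 2 ≤ (g₀ : ℝ) ^ 2 := by gcongr
      _ ≤ (g₀ : ℝ) ^ 2 * (n : ℝ) ^ 2 := le_mul_of_one_le_right (by positivity) hn2
  -- now `g` is large
  have hasy := hg₀ g hgg
  have hg2 : (2 : ℝ) ≤ g := by
    have h1 : (g₀ : ℝ) ≤ g := by exact_mod_cast hgg
    linarith
  obtain ⟨Λ, hΛ⟩ : ∃ Λ : ℝ, Λ = Real.log (2 * g) := ⟨_, rfl⟩
  obtain ⟨L, hL⟩ : ∃ L : ℝ, L = Real.log ((Gc * n : ℕ) : ℝ) := ⟨_, rfl⟩
  rw [← hL] at hA hP
  have hΛ1 : 1 ≤ Λ := by
    rw [hΛ, Real.le_log_iff_exp_le (by linarith)]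
    have h1 := Real.exp_one_lt_d9
    linarith
  have hGc0 : 1 ≤ Gc := by omega
  have hGc' : (1 : ℝ) ≤ Gc := by exact_mod_cast hGc0
  have hL' : L = Real.log Gc + Real.log n := by
    rw [hL, Nat.cast_mul, Real.log_mul (by positivity) (by positivity)]
  have hlogn0 : 0 ≤ Real.log n := Real.log_nonneg hn'
  have hL0 : 0 ≤ L := by
    rw [hL']
    exact add_nonneg (Real.log_nonneg hGc') hlogn0
  have hlogn : Real.log n ≤ Λ := by
    rw [hΛ]
    apply Real.log_le_log (by linarith)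
    have h1 : (n : ℝ) ≤ g := by exact_mod_cast hng
    linarith
  have hlogd : Real.log d ≤ Λ := by
    rw [hΛ]
    apply Real.log_le_log (by linarith)
    have h1 : (d : ℝ) ≤ g := by exact_mod_cast hdg
    linarith
  have hlogG : ∀ b : ℕ, Gc ≤ (2 * g) ^ b → Real.log Gc ≤ b * Λ := by
    intro b h1
    have h2 : (Gc : ℝ) ≤ (2 * g) ^ b := by exact_mod_cast h1
    calc Real.log Gc ≤ Real.log ((2 * g) ^ b) := Real.log_le_log (by linarith) h2
      _ = b * Λ := by rw [Real.log_pow, hΛ]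
  rcases lt_or_ge (160 * Λ * h) (d : ℝ) with ha | ha
  · have h1 : L ≤ (2 * g + 1) * Real.log (2 * g) := by
      rw [← hΛ, hL']
      have h2 := hlogG (2 * g) hGc2
      push_cast at h2
      linarith
    have h2 := caseA g d h n Gc L N hn hng hh hhd hdg h1 hL0 (by rw [← hΛ]; exact ha) hP
    refine h2.trans (le_trans ?_ hlow)
    rw [div_le_div_iff₀ (by positivity) (by positivity), one_mul]
    calc (g : ℝ) ^ 2 ≤ (g : ℝ) ^ 16 := pow_le_pow_right₀ hg' (by norm_num)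
      _ ≤ (g₀ : ℝ) ^ 2 * (n : ℝ) ^ 2 * (g : ℝ) ^ 16 := by
          refine le_mul_of_one_le_left (by positivity) ?_
          exact one_le_mul_of_one_le_of_one_le hC1 hn2
  · -- the bound for the order
    have hlogd0 : 0 ≤ Real.log d := Real.log_nonneg hd'
    have hlogGc : Real.log Gc ≤ 160 * Λ ^ 3 + Λ := by
      obtain ⟨b, hbd⟩ : ∃ b : ℕ, b = ⌊160 * Λ * Real.log d⌋₊ + 1 := ⟨_, rfl⟩
      have hb1 : 160 * Λ * Real.log d < b := by
        rw [hbd]
        push_cast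
        exact Nat.lt_floor_add_one _
      have hb2 : (b : ℝ) ≤ 160 * Λ * Real.log d + 1 := by
        rw [hbd]
        push_cast
        have h1 := Nat.floor_le (show 0 ≤ 160 * Λ * Real.log d by positivity)
        linarith
      have hb3 : (d : ℝ) * (1 - (h : ℝ) / d) ^ b < 1 := by
        have h1 : 1 - (h : ℝ) / d ≤ Real.exp (-((h : ℝ) / d)) := by
          have h2 := Real.add_one_le_exp (-((h : ℝ) / d))
          linarith
        have h2 : 0 ≤ 1 - (h : ℝ) / d := by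
          rw [sub_nonneg, div_le_one (by linarith)]
          exact_mod_cast hhd
        have h3 : (1 - (h : ℝ) / d) ^ b ≤ Real.exp (-(b * ((h : ℝ) / d))) := by
          calc (1 - (h : ℝ) / d) ^ b ≤ (Real.exp (-((h : ℝ) / d))) ^ b :=
                pow_le_pow_left₀ h2 h1 b
            _ = _ := by
                rw [← Real.exp_nat_mul]
                congr 1
                ring
        have h4 : Real.log d < b * ((h : ℝ) / d) := by
          have h5 : 1 / (160 * Λ) ≤ (h : ℝ) / d := by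
            rw [div_le_div_iff₀ (by positivity) (by linarith)]
            linarith
          calc Real.log d = (160 * Λ * Real.log d) * (1 / (160 * Λ)) := by
                field_simp
            _ < b * (1 / (160 * Λ)) := mul_lt_mul_of_pos_right hb1 (by positivity)
            _ ≤ b * ((h : ℝ) / d) := mul_le_mul_of_nonneg_left h5 (Nat.cast_nonneg _)
        calc (d : ℝ) * (1 - (h : ℝ) / d) ^ b ≤ d * Real.exp (-(b * ((h : ℝ) / d))) :=
              mul_le_mul_of_nonneg_left h3 (by linarith)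
          _ = Real.exp (Real.log d - b * ((h : ℝ) / d)) := by
              rw [sub_eq_add_neg, Real.exp_add, Real.exp_log (by linarith)]
          _ < 1 := by
              rw [Real.exp_lt_one_iff]
              linarith
      have h1 := hlogG b (hb b hb3)
      calc Real.log Gc ≤ b * Λ := h1
        _ ≤ (160 * Λ * Real.log d + 1) * Λ := by gcongr
        _ ≤ (160 * Λ * Λ + 1) * Λ := by gcongr
        _ = 160 * Λ ^ 3 + Λ := by ring
    have hLb : L ≤ 170 * Λ ^ 3 := by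
      have h1 : Λ ≤ Λ ^ 3 := le_self_pow₀ hΛ1 (by norm_num)
      rw [hL']
      linarith
    obtain ⟨t, ht⟩ : ∃ t : ℝ, t = (g : ℝ) ^ (1 / 120 : ℝ) := ⟨_, rfl⟩
    have hgt : (g : ℝ) = t ^ 120 := by
      rw [ht, ← Real.rpow_natCast, ← Real.rpow_mul (by linarith)]
      norm_num
    have ht24 : (g : ℝ) ^ (-(1 / 5) : ℝ) = 1 / t ^ 24 := by
      have h1 : t ^ 24 = (g : ℝ) ^ (1 / 5 : ℝ) := by
        rw [ht, ← Real.rpow_natCast, ← Real.rpow_mul (by linarith)]
        norm_num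
      rw [h1, Real.rpow_neg (by linarith), one_div ((g : ℝ) ^ (1 / 5 : ℝ))]
    rw [← ht, ← hΛ] at hasy
    have h1 := caseB g d h e c n t Λ L N hΛ1 hasy hgt hn hh hhd he hhe hc hc3 hdg hL0 hLb ha hA hK
    rw [ht24]
    have h2 : 0 ≤ (n : ℝ) ^ 2 * (d / g) * (1 / t ^ 24) := by
      rw [← ht24]
      positivity
    calc N ≤ (n : ℝ) ^ 2 * (d / g) * (1 / t ^ 24) := h1
      _ ≤ (g₀ : ℝ) ^ 2 * ((n : ℝ) ^ 2 * (d / g) * (1 / t ^ 24)) := le_mul_of_one_le_left h2 hC1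
      _ = _ := by ring

end Pool.Agent.Y710.KN

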